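import Mathlib

/-!
# Two-pattern sets minimising consecutive avoidance counts (MP_f2c072)

For `k = 6` and `n = 11` the pair `{123465, 134265}` is avoided (consecutively) by fewer
permutations than the pair `B_6 = {123465, 123564}`.
-/

namespace Pool.Agent.Results.MP_f2c072_co.NotMinimal

open Equiv Finset

/-- The pattern `p` (a permutation of `k` letters, 0-indexed) occurs in `σ` at the `k` adjacent
positions `i, …, i + k - 1` (0-indexed). -/
def OccursAt {k n : ℕ} (p : Perm (Fin k)) (σ : Perm (Fin n)) (i : ℕ) (h : i + k ≤ n) : Prop :=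
  ∀ a b : Fin k, σ ⟨i + a, by omega⟩ < σ ⟨i + b, by omega⟩ ↔ p a < p b

/-- `σ` contains `p` consecutively. -/
def Contains {k n : ℕ} (p : Perm (Fin k)) (σ : Perm (Fin n)) : Prop :=
  ∃ (i : ℕ) (h : i + k ≤ n), OccursAt p σ i h

open Classical in
/-- `α_B(n)`: the number of permutations of `n` letters that avoid all patterns in `B`
consecutively. -/
noncomputable def α {k : ℕ} (B : Finset (Perm (Fin k))) (n : ℕ) : ℕ :=
  (univ.filter fun σ : Perm (Fin n) => ∀ p ∈ B, ¬ Contains p σ).card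

/-- `τ₁ = 1 2 ⋯ (k-2) k (k-1)`. -/
def tau1 (k : ℕ) (hk : 3 ≤ k) : Perm (Fin k) := swap ⟨k - 2, by omega⟩ ⟨k - 1, by omega⟩

/-- `τ₂ = 1 2 ⋯ (k-3) (k-1) k (k-2)`. -/
def tau2 (k : ℕ) (hk : 3 ≤ k) : Perm (Fin k) :=
  swap ⟨k - 3, by omega⟩ ⟨k - 2, by omega⟩ * swap ⟨k - 2, by omega⟩ ⟨k - 1, by omega⟩

/-- `B_k = {τ₁, τ₂}`. -/
def Bk (k : ℕ) (hk : 3 ≤ k) : Finset (Perm (Fin k)) := {tau1 k hk, tau2 k hk}

/-- The one-line notations of `τ₁` and `τ₂` (0-indexed). -/
theorem tau_apply (k : ℕ) (hk : 3 ≤ k) (j : Fin k) :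
    ((tau1 k hk j : Fin k) : ℕ) =
      (if (j : ℕ) = k - 2 then k - 1 else if (j : ℕ) = k - 1 then k - 2 else j) ∧
    ((tau2 k hk j : Fin k) : ℕ) = (if (j : ℕ) = k - 3 then k - 2 else
      if (j : ℕ) = k - 2 then k - 1 else if (j : ℕ) = k - 1 then k - 3 else j) := by
  simp only [tau1, tau2, Perm.mul_apply, swap_apply_def, Fin.ext_iff]
  constructor
  · split_ifs <;> simp_all
  · split_ifs <;> simp_all <;> omega

/-! ### The case `k = 6`, `n = 11` -/

/-- The embedding of the window of length 6 starting at `i`. -/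
def ι (i : Fin 6) : Fin 6 ↪ Fin 11 :=
  ⟨fun a => ⟨i.val + a.val, by omega⟩, fun a b h => by
    have := congrArg Fin.val h
    simp only at this
    exact Fin.ext (by omega)⟩

theorem ι_val (i a : Fin 6) : (ι i a).val = i.val + a.val := rfl

/-- `p` occurs in `σ` at the window starting at `i`. -/
def Occ (p : Perm (Fin 6)) (i : Fin 6) (σ : Perm (Fin 11)) : Prop :=
  ∀ a b : Fin 6, σ (ι i a) < σ (ι i b) ↔ p a < p b

theorem contains_iff (p : Perm (Fin 6)) (σ : Perm (Fin 11)) :
    Contains p σ ↔ ∃ i : Fin 6, Occ p i σ := by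
  constructor
  · rintro ⟨i, h, ho⟩
    exact ⟨⟨i, by omega⟩, ho⟩
  · rintro ⟨i, ho⟩
    exact ⟨i.val, by omega, ho⟩

open Classical in
/-- The set of `σ` in which `p` occurs at window `i`. -/
noncomputable def O (p : Perm (Fin 6)) (i : Fin 6) : Finset (Perm (Fin 11)) :=
  univ.filter fun σ => Occ p i σ

open Classical in
/-- The set of `σ` in which some pattern of `B` occurs at window `i`. -/
noncomputable def W (B : Finset (Perm (Fin 6))) (i : Fin 6) : Finset (Perm (Fin 11)) :=
  univ.filter fun σ => ∃ p ∈ B, Occ p i σ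

open Classical in
/-- The set of `σ` containing some pattern of `B`. -/
noncomputable def U (B : Finset (Perm (Fin 6))) : Finset (Perm (Fin 11)) :=
  univ.filter fun σ => ∃ i, σ ∈ W B i

theorem mem_O {p : Perm (Fin 6)} {i : Fin 6} {σ : Perm (Fin 11)} : σ ∈ O p i ↔ Occ p i σ := by
  classical
  rw [O, mem_filter]; simp only [mem_univ, true_and]

theorem mem_W {B : Finset (Perm (Fin 6))} {i : Fin 6} {σ : Perm (Fin 11)} :
    σ ∈ W B i ↔ ∃ p ∈ B, Occ p i σ := by
  classical
  rw [W, mem_filter]; simp only [mem_univ, true_and]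

theorem mem_U {B : Finset (Perm (Fin 6))} {σ : Perm (Fin 11)} :
    σ ∈ U B ↔ ∃ i, σ ∈ W B i := by
  classical
  rw [U, mem_filter]; simp only [mem_univ, true_and]

theorem alpha_add (B : Finset (Perm (Fin 6))) : α B 11 + (U B).card = (11).factorial := by
  classical
  have h := Finset.card_filter_add_card_filter_not (s := (univ : Finset (Perm (Fin 11))))
    (fun σ : Perm (Fin 11) => ∀ p ∈ B, ¬ Contains p σ)
  rw [Finset.card_univ, Fintype.card_perm, Fintype.card_fin] at h
  rw [← h]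
  have hU : U B = univ.filter fun σ : Perm (Fin 11) => ¬ ∀ p ∈ B, ¬ Contains p σ := by
    ext σ
    rw [mem_U, mem_filter]
    simp only [mem_univ, true_and, mem_W, not_forall, not_not, contains_iff]
    constructor
    · rintro ⟨i, p, hp, h⟩; exact ⟨p, hp, i, h⟩
    · rintro ⟨p, hp, i, h⟩; exact ⟨i, p, hp, h⟩
  rw [hU]
  unfold α
  congr!

theorem card_O (p p' : Perm (Fin 6)) (i : Fin 6) : (O p i).card = (O p' i).card := by
  classical
  set r : Perm (Fin 11) := (p⁻¹ * p').viaEmbedding (ι i)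
  refine Finset.card_equiv (Equiv.mulRight r) fun σ => ?_
  rw [mem_O, mem_O]
  simp only [Equiv.coe_mulRight, Occ, Perm.mul_apply]
  have hr : ∀ a, r (ι i a) = ι i (p⁻¹ (p' a)) := fun a => Perm.viaEmbedding_apply _ _ _
  simp only [hr]
  constructor
  · intro h a b
    rw [h]; simp
  · intro h a b
    have := h (p'⁻¹ (p a)) (p'⁻¹ (p b))
    simpa using this

/-- Different patterns of `B` are not order isomorphic. -/
def Sep (B : Finset (Perm (Fin 6))) : Prop :=
  ∀ p ∈ B, ∀ q ∈ B, p ≠ q → ∃ a b : Fin 6, p a < p b ∧ ¬ q a < q b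

/-- Two patterns of `B` cannot overlap in more than one letter. -/
def NO (B : Finset (Perm (Fin 6))) : Prop :=
  ∀ p ∈ B, ∀ q ∈ B, ∀ s : Fin 6, 1 ≤ s.val → s.val ≤ 4 → ∃ a b c d : Fin 6,
    a.val = s.val + c.val ∧ b.val = s.val + d.val ∧ ¬ (p a < p b ↔ q c < q d)

theorem W_disj {B : Finset (Perm (Fin 6))} (hB : NO B) {σ : Perm (Fin 11)} {i j : Fin 6}
    (hi : σ ∈ W B i) (hj : σ ∈ W B j) (hij : i < j) : i = 0 ∧ j = 5 := by
  by_contra hcon
  rw [mem_W] at hi hj
  obtain ⟨p, hp, hp'⟩ := hi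
  obtain ⟨q, hq, hq'⟩ := hj
  have h1 : i.val < j.val := hij
  have h2 : j.val - i.val ≤ 4 := by
    by_contra h3
    apply hcon
    constructor
    · apply Fin.ext; show i.val = 0; omega
    · apply Fin.ext; show j.val = 5; omega
  obtain ⟨a, b, c, d, hac, hbd, hne⟩ := hB p hp q hq ⟨j.val - i.val, by omega⟩
    (by show 1 ≤ j.val - i.val; omega) h2
  apply hne
  simp only at hac hbd
  rw [← hp' a b, ← hq' c d]
  have e1 : ι i a = ι j c := Fin.ext (by rw [ι_val, ι_val]; omega)
  have e2 : ι i b = ι j d := Fin.ext (by rw [ι_val, ι_val]; omega)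
  rw [e1, e2]

theorem count_aux : ∀ T : Finset (Fin 6), (∀ i ∈ T, ∀ j ∈ T, i < j → i = 0 ∧ j = 5) →
    T.card = (if T.Nonempty then 1 else 0) + (if 0 ∈ T ∧ 5 ∈ T then 1 else 0) := by
  decide

theorem card_U {B : Finset (Perm (Fin 6))} (hB : NO B) :
    (U B).card + (W B 0 ∩ W B 5).card = ∑ i, (W B i).card := by
  classical
  have h : ∀ σ : Perm (Fin 11), (∑ i : Fin 6, if σ ∈ W B i then 1 else 0) =
      (if σ ∈ U B then 1 else 0) + (if σ ∈ W B 0 ∩ W B 5 then 1 else 0) := by
    intro σ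
    have := count_aux (univ.filter fun i => σ ∈ W B i) (by
      intro i hi j hj hij
      simp only [mem_filter, mem_univ, true_and] at hi hj
      exact W_disj hB hi hj hij)
    rw [Finset.card_filter] at this
    rw [this]
    congr 1
    · simp [mem_U, Finset.Nonempty]
    · simp
  calc (U B).card + (W B 0 ∩ W B 5).card
      = ∑ σ : Perm (Fin 11), ((if σ ∈ U B then 1 else 0) +
          (if σ ∈ W B 0 ∩ W B 5 then 1 else 0)) := by
        rw [Finset.sum_add_distrib, Finset.sum_ite_mem, Finset.sum_ite_mem]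
        simp
    _ = ∑ σ : Perm (Fin 11), ∑ i : Fin 6, (if σ ∈ W B i then 1 else 0) :=
        Finset.sum_congr rfl fun σ _ => (h σ).symm
    _ = ∑ i, (W B i).card := by
        rw [Finset.sum_comm]
        simp

open Classical in
theorem W_eq (B : Finset (Perm (Fin 6))) (i : Fin 6) : W B i = B.biUnion fun p => O p i := by
  ext σ
  rw [mem_W, mem_biUnion]
  simp only [mem_O]

theorem card_W {B : Finset (Perm (Fin 6))} (hB : Sep B) (i : Fin 6) (p₀ : Perm (Fin 6)) :
    (W B i).card = B.card * (O p₀ i).card := by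
  classical
  rw [W_eq, Finset.card_biUnion]
  · rw [Finset.sum_congr rfl fun p _ => card_O p p₀ i, Finset.sum_const, smul_eq_mul]
  · intro p hp q hq hpq
    rw [Function.onFun, Finset.disjoint_left]
    intro σ h1 h2
    rw [mem_O] at h1 h2
    obtain ⟨a, b, h3, h4⟩ := hB p hp q hq hpq
    exact h4 ((h2 a b).1 ((h1 a b).2 h3))

open Classical in
/-- `p` occurs at window `0` and `q` at window `5`. -/
noncomputable def X (p q : Perm (Fin 6)) : Finset (Perm (Fin 11)) :=
  univ.filter fun σ => Occ p 0 σ ∧ Occ q 5 σ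

theorem mem_X {p q : Perm (Fin 6)} {σ : Perm (Fin 11)} :
    σ ∈ X p q ↔ Occ p 0 σ ∧ Occ q 5 σ := by
  classical
  rw [X, mem_filter]; simp only [mem_univ, true_and]

theorem card_inter {p q : Perm (Fin 6)} (hpq : p ≠ q) (hB : Sep {p, q}) :
    (W {p, q} 0 ∩ W {p, q} 5).card =
      (X p p).card + (X p q).card + ((X q p).card + (X q q).card) := by
  classical
  have e : W {p, q} 0 ∩ W {p, q} 5 =
      (({p, q} : Finset (Perm (Fin 6))) ×ˢ {p, q}).biUnion fun z => X z.1 z.2 := by
    ext σ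
    rw [mem_inter, mem_W, mem_W, mem_biUnion]
    simp only [mem_X, mem_product, Prod.exists]
    constructor
    · rintro ⟨⟨a, ha, ha'⟩, ⟨b, hb, hb'⟩⟩; exact ⟨a, b, ⟨ha, hb⟩, ha', hb'⟩
    · rintro ⟨a, b, ⟨ha, hb⟩, ha', hb'⟩; exact ⟨⟨a, ha, ha'⟩, ⟨b, hb, hb'⟩⟩
  rw [e, Finset.card_biUnion, Finset.sum_product, Finset.sum_pair hpq, Finset.sum_pair hpq,
    Finset.sum_pair hpq]
  rintro ⟨a, b⟩ hab ⟨c, d⟩ hcd hne
  rw [Function.onFun, Finset.disjoint_left]
  intro σ h1 h2
  rw [mem_X] at h1 h2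
  rw [Finset.mem_coe, Finset.mem_product] at hab hcd
  simp only at hab hcd h1 h2
  by_cases hac : a = c
  · subst hac
    have hbd : b ≠ d := fun h => hne (by rw [h])
    obtain ⟨x, y, h3, h4⟩ := hB b hab.2 d hcd.2 hbd
    exact h4 ((h2.2 x y).1 ((h1.2 x y).2 h3))
  · obtain ⟨x, y, h3, h4⟩ := hB a hab.1 c hcd.1 hac
    exact h4 ((h2.1 x y).1 ((h1.1 x y).2 h3))

theorem card_X_left {p p' q : Perm (Fin 6)} (h5 : p 5 = p' 5) : (X p q).card = (X p' q).card := by
  classical
  set r : Perm (Fin 11) := (p⁻¹ * p').viaEmbedding (ι 0)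
  have hr : ∀ a, r (ι 0 a) = ι 0 (p⁻¹ (p' a)) := fun a => Perm.viaEmbedding_apply _ _ _
  have hr5 : ∀ c, r (ι 5 c) = ι 5 c := by
    intro c
    by_cases hc : c = 0
    · subst hc
      have e : ι 5 0 = ι 0 5 := rfl
      rw [e, hr, ← h5]; simp
    · apply Perm.viaEmbedding_apply_of_notMem
      rintro ⟨x, hx⟩
      have := congrArg Fin.val hx
      rw [ι_val, ι_val] at this
      have h0 : c.val ≠ 0 := fun h => hc (Fin.ext h)
      have h5' : ((5 : Fin 6) : ℕ) = 5 := rfl
      have h0' : ((0 : Fin 6) : ℕ) = 0 := rfl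
      omega
  refine Finset.card_equiv (Equiv.mulRight r) fun σ => ?_
  rw [mem_X, mem_X]
  simp only [Equiv.coe_mulRight, Occ, Perm.mul_apply, hr, hr5]
  refine and_congr ?_ Iff.rfl
  constructor
  · intro h a b
    rw [h]; simp
  · intro h a b
    have := h (p'⁻¹ (p a)) (p'⁻¹ (p b))
    simpa using this

theorem card_X_right {p q q' : Perm (Fin 6)} (h0 : q 0 = q' 0) : (X p q).card = (X p q').card := by
  classical
  set r : Perm (Fin 11) := (q⁻¹ * q').viaEmbedding (ι 5)
  have hr : ∀ a, r (ι 5 a) = ι 5 (q⁻¹ (q' a)) := fun a => Perm.viaEmbedding_apply _ _ _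
  have hr5 : ∀ c, r (ι 0 c) = ι 0 c := by
    intro c
    by_cases hc : c = 5
    · subst hc
      have e : ι 0 5 = ι 5 0 := rfl
      rw [e, hr, ← h0]; simp
    · apply Perm.viaEmbedding_apply_of_notMem
      rintro ⟨x, hx⟩
      have := congrArg Fin.val hx
      rw [ι_val, ι_val] at this
      have h5' : ((5 : Fin 6) : ℕ) = 5 := rfl
      have h0' : ((0 : Fin 6) : ℕ) = 0 := rfl
      have h0 : c.val ≠ 5 := fun h => hc (Fin.ext h)
      omega
  refine Finset.card_equiv (Equiv.mulRight r) fun σ => ?_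
  rw [mem_X, mem_X]
  simp only [Equiv.coe_mulRight, Occ, Perm.mul_apply, hr, hr5]
  refine and_congr Iff.rfl ?_
  constructor
  · intro h a b
    rw [h]; simp
  · intro h a b
    have := h (q'⁻¹ (q a)) (q'⁻¹ (q b))
    simpa using this

/-- `τ₁ = 123465`. -/
def t1 : Perm (Fin 6) := tau1 6 (by norm_num)

/-- `τ₂ = 123564`. -/
def t2 : Perm (Fin 6) := tau2 6 (by norm_num)

/-- The pattern `134265`. -/
def q1 : Perm (Fin 6) := swap 1 2 * swap 2 3 * swap 4 5

theorem q1_apply : q1 0 = 0 ∧ q1 1 = 2 ∧ q1 2 = 3 ∧ q1 3 = 1 ∧ q1 4 = 5 ∧ q1 5 = 4 := by decide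

theorem sepB : Sep {t1, t2} := by unfold Sep; decide +kernel
theorem sepB' : Sep {t1, q1} := by unfold Sep; decide +kernel
theorem noB : NO {t1, t2} := by unfold NO; decide +kernel
theorem noB' : NO {t1, q1} := by unfold NO; decide +kernel

theorem X_lt : (X t1 t1).card < (X t2 t1).card := by
  classical
  have hsub : (X t1 t1).map (Equiv.mulRight (swap (3 : Fin 11) 5)).toEmbedding ⊂ X t2 t1 := by
    rw [Finset.ssubset_iff_subset_ne]
    constructor
    · intro τ hτ
      rw [Finset.mem_map] at hτ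
      obtain ⟨σ, hσ, rfl⟩ := hτ
      rw [mem_X] at hσ ⊢
      obtain ⟨h1, h2⟩ := hσ
      have key1 : ∀ a : Fin 6, swap (3 : Fin 11) 5 (ι 0 a) = ι 0 (swap (3 : Fin 6) 5 a) := by
        decide
      have key2 : ∀ a : Fin 6, a ≠ 0 → swap (3 : Fin 11) 5 (ι 5 a) = ι 5 a := by decide
      have key3 : swap (3 : Fin 11) 5 (ι 5 0) = ι 0 3 := by decide
      constructor
      · intro a b
        show σ (swap (3 : Fin 11) 5 (ι 0 a)) < σ (swap (3 : Fin 11) 5 (ι 0 b)) ↔ _
        rw [key1, key1, h1]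
        revert a b
        decide
      · intro a b
        show σ (swap (3 : Fin 11) 5 (ι 5 a)) < σ (swap (3 : Fin 11) 5 (ι 5 b)) ↔ _
        have hlt : ∀ c : Fin 6, c ≠ 0 → σ (ι 0 3) < σ (ι 5 c) := by
          intro c hc
          have e1 : σ (ι 0 3) < σ (ι 0 5) := (h1 3 5).2 (by decide)
          have e2 : σ (ι 5 0) < σ (ι 5 c) := (h2 0 c).2 (by revert c; decide)
          have e3 : ι 0 5 = ι 5 0 := rfl
          rw [e3] at e1
          exact e1.trans e2
        by_cases ha : a = 0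
        · by_cases hb : b = 0
          · subst ha hb; simp
          · subst ha
            rw [key3, key2 b hb]
            simp only [hlt b hb, true_iff]
            revert b; decide
        · by_cases hb : b = 0
          · subst hb
            rw [key3, key2 a ha]
            simp only [not_lt.2 (hlt a ha).le, false_iff]
            revert a; decide
          · rw [key2 a ha, key2 b hb, h2]
    · intro heq
      have hmem : (⟨![0, 1, 2, 5, 6, 3, 4, 7, 8, 10, 9], ![0, 1, 2, 5, 6, 3, 4, 7, 8, 10, 9],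
          by decide, by decide⟩ : Perm (Fin 11)) ∈ X t2 t1 := by
        rw [mem_X]
        unfold Occ
        decide +kernel
      rw [← heq, Finset.mem_map] at hmem
      obtain ⟨σ, hσ, hσ'⟩ := hmem
      rw [mem_X] at hσ
      have h2 : σ (ι 5 0) < σ (ι 5 1) := (hσ.2 0 1).2 (by decide)
      have e5 := congrArg (fun f : Perm (Fin 11) => f 3) hσ'
      have e6 := congrArg (fun f : Perm (Fin 11) => f 6) hσ'
      simp only [Equiv.coe_toEmbedding, Equiv.coe_mulRight, Perm.mul_apply] at e5 e6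
      rw [show swap (3 : Fin 11) 5 3 = ι 5 0 by decide] at e5
      rw [show swap (3 : Fin 11) 5 6 = ι 5 1 by decide] at e6
      rw [e5, e6] at h2
      revert h2
      decide
  have := Finset.card_lt_card hsub
  rwa [Finset.card_map] at this

/-- **Q1 is false**: for `k = 6` and `n = 11` the two-element set `{123465, 134265} ⊆ S₆`
satisfies `α_{B'}(11) < α_{B_6}(11)`, where `B_6 = {123465, 123564}`. -/
theorem result : ∃ B' : Finset (Perm (Fin 6)), B'.card = 2 ∧
    α B' 11 < α (Bk 6 (by norm_num)) 11 := by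
  refine ⟨{t1, q1}, by decide, ?_⟩
  have hB : Bk 6 (by norm_num) = {t1, t2} := rfl
  rw [hB]
  have a1 := alpha_add {t1, t2}
  have a2 := alpha_add {t1, q1}
  have u1 := card_U noB
  have u2 := card_U noB'
  have w1 : ∀ i, (W {t1, t2} i).card = 2 * (O t1 i).card := fun i => by
    rw [card_W sepB i t1]; rfl
  have w2 : ∀ i, (W {t1, q1} i).card = 2 * (O t1 i).card := fun i => by
    rw [card_W sepB' i t1]; rfl
  simp only [w1] at u1
  simp only [w2] at u2
  rw [card_inter (by decide) sepB] at u1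
  rw [card_inter (by decide) sepB'] at u2
  have b1 : (X t1 q1).card = (X t1 t1).card := card_X_right (by decide)
  have b2 : (X q1 t1).card = (X t1 t1).card := card_X_left (by decide)
  have b3 : (X q1 q1).card = (X t1 t1).card := (card_X_right (by decide)).trans b2
  have b4 : (X t1 t2).card = (X t1 t1).card := card_X_right (by decide)
  have b5 : (X t2 t2).card = (X t2 t1).card := card_X_right (by decide)
  rw [b1, b2, b3] at u2
  rw [b4, b5] at u1
  have := X_lt
  omega

end Pool.Agent.Results.MP_f2c072_co.NotMinimal
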